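import Mathlib

/-!
# Continuous weak selections as open tournaments
-/

set_option autoImplicit false

namespace V1125.King

open Set Topology

/-- A continuous weak selection: `R a b` means `a ≠ b` and `b` is selected from `{a, b}`. -/
structure Sel (X : Type*) [TopologicalSpace X] where
  /-- the relation -/
  R : X → X → Prop
  asymm : ∀ a b, R a b → ¬ R b a
  total : ∀ a b, a ≠ b → R a b ∨ R b a
  isOpen : IsOpen {p : X × X | R p.1 p.2}

namespace Sel

variable {X : Type*} [TopologicalSpace X] (S : Sel X)

theorem irrefl (a : X) : ¬ S.R a a := fun h => S.asymm a a h h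

theorem ne {a b : X} (h : S.R a b) : a ≠ b := by
  rintro rfl
  exact S.irrefl a h

theorem isOpen_left (b : X) : IsOpen {a | S.R a b} :=
  S.isOpen.preimage (Continuous.prodMk_left b)

theorem isOpen_right (a : X) : IsOpen {b | S.R a b} :=
  S.isOpen.preimage (Continuous.prodMk_right a)

/-- A king. -/
def King (z : X) : Prop := ∀ x, x = z ∨ S.R z x ∨ ∃ y, S.R z y ∧ S.R y x

/-- The opposite selection. -/
def op : Sel X where
  R a b := S.R b a
  asymm a b h := S.asymm b a h
  total a b h := (S.total a b h).symm
  isOpen := S.isOpen.preimage continuous_swap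

/-- No king in a subset. -/
def KinglessOn (B : Set X) : Prop :=
  ∀ z ∈ B, ∃ x ∈ B, x ≠ z ∧ ¬ S.R z x ∧ ∀ y ∈ B, ¬ (S.R z y ∧ S.R y x)

/-- Everything in `B` loses to the complement of `B`. -/
def comb (B : Set X) (hB : IsClopen B) : Sel X where
  R a b := (a ∈ B ∧ b ∈ B ∧ S.R a b) ∨ (a ∉ B ∧ b ∉ B ∧ S.R a b) ∨ (a ∈ B ∧ b ∉ B)
  asymm a b h := by
    have := S.asymm a b
    tauto
  total a b h := by
    have := S.total a b h
    tauto
  isOpen := by
    have h1 : IsOpen {p : X × X | p.1 ∈ B} := hB.isOpen.preimage continuous_fst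
    have h2 : IsOpen {p : X × X | p.2 ∈ B} := hB.isOpen.preimage continuous_snd
    have h3 : IsOpen {p : X × X | p.1 ∉ B} := hB.compl.isOpen.preimage continuous_fst
    have h4 : IsOpen {p : X × X | p.2 ∉ B} := hB.compl.isOpen.preimage continuous_snd
    have h5 := ((h1.inter (h2.inter S.isOpen)).union
      ((h3.inter (h4.inter S.isOpen)).union (h1.inter h4)))
    exact h5

theorem comb_kingless (B : Set X) (hB : IsClopen B) (hne : B.Nonempty) (hk : S.KinglessOn B) :
    ∀ z, ¬ (S.comb B hB).King z := by
  intro z hz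
  by_cases hzB : z ∈ B
  · obtain ⟨x, hx, hxz, h1, h2⟩ := hk z hzB
    rcases hz x with h | h | ⟨y, hy1, hy2⟩
    · exact hxz h
    · rcases h with h | h | h
      · exact h1 h.2.2
      · exact h.1 hzB
      · exact h.2 hx
    · have hyB : y ∈ B := by
        rcases hy2 with h | h | h
        · exact h.1
        · exact absurd hx h.2.1
        · exact h.1
      refine h2 y hyB ⟨?_, ?_⟩
      · rcases hy1 with h | h | h
        · exact h.2.2
        · exact absurd hyB h.2.1
        · exact absurd hyB h.2
      · rcases hy2 with h | h | h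
        · exact h.2.2
        · exact absurd hyB h.1
        · exact absurd hx h.2
  · obtain ⟨x, hx⟩ := hne
    rcases hz x with h | h | ⟨y, hy1, hy2⟩
    · exact hzB (h ▸ hx)
    · rcases h with h | h | h
      · exact hzB h.1
      · exact h.2.1 hx
      · exact hzB h.1
    · rcases hy1 with h | h | h
      · exact hzB h.1
      · rcases hy2 with h' | h' | h'
        · exact h.2.1 h'.1
        · exact h'.2.1 hx
        · exact h.2.1 h'.1
      · exact hzB h.1

/-- Order by a locally constant function first. -/
def lex (f : X → ℕ) (hf : IsLocallyConstant f) : Sel X where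
  R a b := f b < f a ∨ (f a = f b ∧ S.R a b)
  asymm a b h := by
    rcases h with h | ⟨h, h'⟩
    · rintro (h2 | ⟨h2, _⟩) <;> omega
    · rintro (h2 | ⟨_, h3⟩)
      · omega
      · exact S.asymm a b h' h3
  total a b h := by
    rcases lt_trichotomy (f a) (f b) with h1 | h1 | h1
    · exact Or.inr (Or.inl h1)
    · rcases S.total a b h with h2 | h2
      · exact Or.inl (Or.inr ⟨h1, h2⟩)
      · exact Or.inr (Or.inr ⟨h1.symm, h2⟩)
    · exact Or.inl (Or.inl h1)
  isOpen := by
    have hc : Continuous f := hf.continuous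
    have h1 : IsOpen {p : X × X | f p.2 < f p.1} :=
      isOpen_lt (hc.comp continuous_snd) (hc.comp continuous_fst)
    have h2 : IsOpen {p : X × X | f p.1 = f p.2} := by
      have h3 : Continuous (fun p : X × X => (f p.1, f p.2)) :=
        (hc.comp continuous_fst).prodMk (hc.comp continuous_snd)
      exact (isOpen_discrete {q : ℕ × ℕ | q.1 = q.2}).preimage h3
    exact h1.union (h2.inter S.isOpen)

theorem lex_kingless (f : X → ℕ) (hf : IsLocallyConstant f) (hinf : (range f).Infinite) :
    ∀ z, ¬ (S.lex f hf).King z := by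
  intro z hz
  obtain ⟨n, ⟨x, rfl⟩, hn⟩ := hinf.exists_gt (f z)
  rcases hz x with h | h | ⟨y, hy1, hy2⟩
  · subst h; exact lt_irrefl _ hn
  · rcases h with h | ⟨h, _⟩ <;> omega
  · rcases hy1 with h | ⟨h, _⟩ <;> rcases hy2 with h' | ⟨h', _⟩ <;> omega

/-- A point outside a preconnected set compares with it in a constant way. -/
theorem const_of_left {a b : X} {C : Set X} (hC : IsPreconnected C) (ha : a ∉ C) (hb : b ∈ C)
    (h : S.R a b) : ∀ c ∈ C, S.R a c := by
  have h1 := hC.subset_or_subset (S.isOpen_right a) (S.isOpen_left a)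
    (Set.disjoint_left.2 fun c h1 h2 => S.asymm a c h1 h2)
    (fun c hc => S.total a c (fun h => ha (h ▸ hc)))
  rcases h1 with h1 | h1
  · exact fun c hc => h1 hc
  · exact absurd (h1 hb) (S.asymm a b h)

theorem const_of_right {a b : X} {C : Set X} (hC : IsPreconnected C) (ha : a ∉ C) (hb : b ∈ C)
    (h : S.R b a) : ∀ c ∈ C, S.R c a :=
  S.op.const_of_left hC ha hb h

/-- Restriction to a subspace. -/
def restrict (C : Set X) : Sel C where
  R a b := S.R a b
  asymm a b h := S.asymm a b h
  total a b h := S.total a b (fun h' => h (Subtype.ext h'))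
  isOpen := S.isOpen.preimage
    ((continuous_subtype_val.comp continuous_fst).prodMk (continuous_subtype_val.comp continuous_snd))

end Sel

end V1125.King
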