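import Mathlib
import Pool.Agent.V1125.King.Sel

/-!
# A non-compact component
-/

set_option autoImplicit false

namespace V1125.King

open Set Topology

section Order

variable {Y : Type*} [TopologicalSpace Y] [LinearOrder Y] [OrderClosedTopology Y]
  [PreconnectedSpace Y]

theorem exists_between' {x t : Y} (h : x < t) : ∃ y, x < y ∧ y < t := by
  by_contra hcon
  push Not at hcon
  have h1 := (isPreconnected_univ (α := Y)).subset_or_subset (isOpen_Iio (a := t))
    (isOpen_Ioi (a := x)) (Set.disjoint_left.2 fun y h1 h2 => absurd h1 (not_lt.2 (hcon y h2)))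
    (fun y _ => by
      rcases lt_or_ge y t with h2 | h2
      · exact Or.inl h2
      · exact Or.inr (h.trans_le h2))
  rcases h1 with h1 | h1
  · exact lt_irrefl t (h1 (Set.mem_univ t))
  · exact lt_irrefl x (h1 (Set.mem_univ x))

theorem preconn_Icc {x y : Y} (h : x ≤ y) : IsPreconnected (Icc x y) := by
  have h1 : Continuous fun t : Y => min (max t x) y :=
    (continuous_id.max continuous_const).min continuous_const
  have h2 : range (fun t : Y => min (max t x) y) = Icc x y := by
    ext t
    constructor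
    · rintro ⟨s, rfl⟩
      exact ⟨le_min (le_max_right _ _) h, min_le_right _ _⟩
    · rintro ⟨ht1, ht2⟩
      exact ⟨t, by simp [max_eq_left ht1, min_eq_left ht2]⟩
  rw [← h2]
  exact isPreconnected_range h1

theorem up {x : Y} {K : Set Y} (hK : IsCompact K) (hx : x ∈ interior K) (hmax : ∃ z, x < z) :
    ∃ y, x < y ∧ Icc x y ⊆ K := by
  by_contra hcon
  push Not at hcon
  have hne : ∀ y, x < y → (Icc x y ∩ (K \ interior K)).Nonempty := by
    intro y hy
    by_contra hemp
    rw [Set.not_nonempty_iff_eq_empty] at hemp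
    have h1 := (preconn_Icc hy.le).subset_or_subset isOpen_interior hK.isClosed.isOpen_compl
      (Set.disjoint_left.2 fun t h1 h2 => h2 (interior_subset h1))
      (fun t ht => by
        by_contra hcon2
        rw [Set.mem_union, not_or, Set.mem_compl_iff, not_not] at hcon2
        have : t ∈ Icc x y ∩ (K \ interior K) := ⟨ht, hcon2.2, hcon2.1⟩
        rw [hemp] at this
        exact this)
    rcases h1 with h1 | h1
    · exact hcon y hy (h1.trans interior_subset)
    · exact h1 ⟨le_rfl, hy.le⟩ (interior_subset hx)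
  obtain ⟨z, hz⟩ := hmax
  have : Nonempty {y : Y // x < y} := ⟨⟨z, hz⟩⟩
  have hcomp : IsCompact (K \ interior K) := hK.diff isOpen_interior
  obtain ⟨t, ht⟩ := IsCompact.nonempty_iInter_of_directed_nonempty_isCompact_isClosed
    (fun y : {y : Y // x < y} => Icc x y.1 ∩ (K \ interior K))
    (by
      rintro ⟨y, hy⟩ ⟨y', hy'⟩
      refine ⟨⟨min y y', lt_min hy hy'⟩, ?_, ?_⟩
      · exact Set.inter_subset_inter_left _ (Icc_subset_Icc_right (min_le_left _ _))
      · exact Set.inter_subset_inter_left _ (Icc_subset_Icc_right (min_le_right _ _)))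
    (fun y => hne y.1 y.2) (fun y => hcomp.inter_left isClosed_Icc)
    (fun y => isClosed_Icc.inter hcomp.isClosed)
  rw [Set.mem_iInter] at ht
  have h1 := ht ⟨z, hz⟩
  have hxt : x < t := by
    refine lt_of_le_of_ne h1.1.1 ?_
    rintro rfl
    exact h1.2.2 hx
  obtain ⟨y, hy1, hy2⟩ := exists_between' hxt
  exact absurd ((ht ⟨y, hy1⟩).1.2) (not_le.2 hy2)

theorem down {x : Y} {K : Set Y} (hK : IsCompact K) (hx : x ∈ interior K) (hmin : ∃ z, z < x) :
    ∃ y, y < x ∧ Icc y x ⊆ K := by
  by_contra hcon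
  push Not at hcon
  have hne : ∀ y, y < x → (Icc y x ∩ (K \ interior K)).Nonempty := by
    intro y hy
    by_contra hemp
    rw [Set.not_nonempty_iff_eq_empty] at hemp
    have h1 := (preconn_Icc hy.le).subset_or_subset isOpen_interior hK.isClosed.isOpen_compl
      (Set.disjoint_left.2 fun t h1 h2 => h2 (interior_subset h1))
      (fun t ht => by
        by_contra hcon2
        rw [Set.mem_union, not_or, Set.mem_compl_iff, not_not] at hcon2
        have : t ∈ Icc y x ∩ (K \ interior K) := ⟨ht, hcon2.2, hcon2.1⟩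
        rw [hemp] at this
        exact this)
    rcases h1 with h1 | h1
    · exact hcon y hy (h1.trans interior_subset)
    · exact h1 ⟨hy.le, le_rfl⟩ (interior_subset hx)
  obtain ⟨z, hz⟩ := hmin
  have : Nonempty {y : Y // y < x} := ⟨⟨z, hz⟩⟩
  have hcomp : IsCompact (K \ interior K) := hK.diff isOpen_interior
  obtain ⟨t, ht⟩ := IsCompact.nonempty_iInter_of_directed_nonempty_isCompact_isClosed
    (fun y : {y : Y // y < x} => Icc y.1 x ∩ (K \ interior K))
    (by
      rintro ⟨y, hy⟩ ⟨y', hy'⟩
      refine ⟨⟨max y y', max_lt hy hy'⟩, ?_, ?_⟩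
      · exact Set.inter_subset_inter_left _ (Icc_subset_Icc_left (le_max_left _ _))
      · exact Set.inter_subset_inter_left _ (Icc_subset_Icc_left (le_max_right _ _)))
    (fun y => hne y.1 y.2) (fun y => hcomp.inter_left isClosed_Icc)
    (fun y => isClosed_Icc.inter hcomp.isClosed)
  rw [Set.mem_iInter] at ht
  have h1 := ht ⟨z, hz⟩
  have hxt : t < x := by
    refine lt_of_le_of_ne h1.1.2 ?_
    rintro rfl
    exact h1.2.2 hx
  obtain ⟨y, hy1, hy2⟩ := exists_between' hxt
  exact absurd ((ht ⟨y, hy2⟩).1.1) (not_le.2 hy1)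

theorem compact_of_min_max [LocallyCompactSpace Y] (m M : Y) (hm : ∀ x, m ≤ x)
    (hM : ∀ x, x ≤ M) : CompactSpace Y := by
  let T : Set Y := {x | IsCompact (Iic x)}
  have hdown : ∀ x y, x ≤ y → y ∈ T → x ∈ T := by
    intro x y hxy hy
    exact hy.of_isClosed_subset isClosed_Iic (Iic_subset_Iic.2 hxy)
  have hopen : IsOpen T := by
    rw [isOpen_iff_mem_nhds]
    intro x hx
    obtain ⟨K, hK, hKx⟩ := exists_compact_mem_nhds x
    by_cases hmax : ∃ z, x < z
    · obtain ⟨y, hxy, hy⟩ := up hK (mem_interior_iff_mem_nhds.2 hKx) hmax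
      have hyT : y ∈ T := by
        have h1 : Iic y = Iic x ∪ Icc x y := (Iic_union_Icc_eq_Iic hxy.le).symm
        change IsCompact (Iic y)
        rw [h1]
        exact IsCompact.union hx (hK.of_isClosed_subset isClosed_Icc hy)
      filter_upwards [isOpen_Iio.mem_nhds hxy] with t ht
      exact hdown t y (le_of_lt ht) hyT
    · push Not at hmax
      filter_upwards with t
      exact hdown t x (hmax t) hx
  have hclosed : IsClosed T := by
    rw [← isOpen_compl_iff, isOpen_iff_mem_nhds]
    intro x hx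
    obtain ⟨K, hK, hKx⟩ := exists_compact_mem_nhds x
    by_cases hmin : ∃ z, z < x
    · obtain ⟨a, hax, ha⟩ := down hK (mem_interior_iff_mem_nhds.2 hKx) hmin
      filter_upwards [isOpen_Ioi.mem_nhds hax] with t ht htT
      apply hx
      have h1 : Iic x = Iic a ∪ Icc a x := (Iic_union_Icc_eq_Iic hax.le).symm
      change IsCompact (Iic x)
      rw [h1]
      exact IsCompact.union (hdown a t (le_of_lt ht) htT)
        (hK.of_isClosed_subset isClosed_Icc ha)
    · push Not at hmin
      exfalso
      apply hx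
      have h1 : Iic x = {x} := by
        ext t
        exact ⟨fun h => le_antisymm h (hmin t), fun h => by rw [Set.mem_singleton_iff.1 h]; exact le_rfl⟩
      change IsCompact (Iic x)
      rw [h1]
      exact isCompact_singleton
  have hne : T.Nonempty := by
    refine ⟨m, ?_⟩
    have h1 : Iic m = {m} := by
      ext t
      exact ⟨fun h => le_antisymm h (hm t), fun h => by rw [Set.mem_singleton_iff.1 h]; exact le_rfl⟩
    change IsCompact (Iic m)
    rw [h1]
    exact isCompact_singleton
  have huniv : T = univ := IsClopen.eq_univ ⟨hclosed, hopen⟩ hne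
  have h1 : M ∈ T := by rw [huniv]; exact Set.mem_univ _
  have h2 : Iic M = univ := Set.eq_univ_of_forall hM
  refine ⟨?_⟩
  rw [← h2]
  exact h1

end Order

namespace Sel

section

variable {Y : Type*} [TopologicalSpace Y] [PreconnectedSpace Y] (S : Sel Y)

theorem trans {a b c : Y} (h1 : S.R a b) (h2 : S.R b c) : S.R a c := by
  have hQo : IsOpen {x | S.R b x ∧ S.R x a} := (S.isOpen_right b).inter (S.isOpen_left a)
  have hQc : {x | S.R b x ∧ S.R x a}ᶜ = {x | S.R x b} ∪ {x | S.R a x} := by
    ext x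
    simp only [Set.mem_compl_iff, Set.mem_ofPred_eq, Set.mem_union]
    constructor
    · intro h
      by_cases hbx : S.R b x
      · have hxa : ¬ S.R x a := fun h' => h ⟨hbx, h'⟩
        by_cases hxa' : x = a
        · subst hxa'; exact Or.inl h1
        · exact Or.inr ((S.total x a hxa').resolve_left hxa)
      · by_cases hxb : x = b
        · subst hxb; exact Or.inr h1
        · exact Or.inl ((S.total x b hxb).resolve_right hbx)
    · rintro (h | h) ⟨h3, h4⟩
      · exact S.asymm _ _ h h3
      · exact S.asymm _ _ h h4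
  have hclopen : IsClopen {x | S.R b x ∧ S.R x a} := by
    refine ⟨?_, hQo⟩
    rw [← isOpen_compl_iff, hQc]
    exact (S.isOpen_left b).union (S.isOpen_right a)
  rcases isClopen_iff.1 hclopen with h | h
  · by_cases hac : a = c
    · subst hac
      exact absurd h2 (S.asymm _ _ h1)
    · rcases S.total a c hac with h3 | h3
      · exact h3
      · have : c ∈ {x | S.R b x ∧ S.R x a} := ⟨h2, h3⟩
        rw [h] at this
        exact absurd this (Set.notMem_empty _)
  · have : a ∈ {x | S.R b x ∧ S.R x a} := by rw [h]; exact Set.mem_univ _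
    exact absurd this.2 (S.irrefl a)

/-- The linear order of a selection on a connected space. -/
@[reducible] noncomputable def linOrd : LinearOrder Y where
  le a b := a = b ∨ S.R b a
  lt a b := S.R b a
  le_refl a := Or.inl rfl
  le_trans a b c h1 h2 := by
    rcases h1 with rfl | h1
    · exact h2
    · rcases h2 with rfl | h2
      · exact Or.inr h1
      · exact Or.inr (S.trans h2 h1)
  lt_iff_le_not_ge a b := by
    constructor
    · intro h
      refine ⟨Or.inr h, ?_⟩
      rintro (rfl | h')
      · exact S.irrefl _ h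
      · exact S.asymm _ _ h h'
    · rintro ⟨rfl | h, h'⟩
      · exact absurd (Or.inl rfl) h'
      · exact h
  le_antisymm a b h1 h2 := by
    rcases h1 with rfl | h1
    · rfl
    · rcases h2 with rfl | h2
      · rfl
      · exact absurd h2 (S.asymm _ _ h1)
  le_total a b := by
    by_cases h : a = b
    · exact Or.inl (Or.inl h)
    · rcases S.total a b h with h1 | h1
      · exact Or.inr (Or.inr h1)
      · exact Or.inl (Or.inr h1)
  toDecidableLE := Classical.decRel _

theorem exists_unbounded [LocallyCompactSpace Y] [Nonempty Y] (hY : ¬ CompactSpace Y) :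
    (∀ x, ∃ y, S.R y x) ∨ (∀ x, ∃ y, S.R x y) := by
  by_contra hcon
  push Not at hcon
  obtain ⟨⟨M, hM⟩, ⟨m, hm⟩⟩ := hcon
  apply hY
  let _ := S.linOrd
  have : OrderClosedTopology Y := by
    refine ⟨?_⟩
    rw [← isOpen_compl_iff]
    have h1 : {p : Y × Y | p.1 ≤ p.2}ᶜ = {p : Y × Y | S.R p.1 p.2} := by
      ext p
      exact not_le (a := p.1) (b := p.2)
    rw [h1]
    exact S.isOpen
  exact compact_of_min_max m M (fun x => not_lt.1 (hm x)) (fun x => not_lt.1 (hM x))

end

variable {X : Type*} [TopologicalSpace X] [LocallyCompactSpace X] (S : Sel X)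

theorem case1_aux (C : Set X) (hCc : IsClosed C) (hC : IsPreconnected C) (hCne : C.Nonempty)
    (hun : ∀ x ∈ C, ∃ y ∈ C, S.R y x) : ∃ S' : Sel X, ∀ z, ¬ S'.King z := by
  have : PreconnectedSpace C := isPreconnected_iff_preconnectedSpace.1 hC
  have htrans : ∀ a ∈ C, ∀ b ∈ C, ∀ c ∈ C, S.R a b → S.R b c → S.R a c := by
    intro a ha b hb c hc h1 h2
    exact (S.restrict C).trans (a := ⟨a, ha⟩) (b := ⟨b, hb⟩) (c := ⟨c, hc⟩) h1 h2
  let B : Set X := {a | a ∈ C ∨ ∀ c ∈ C, S.R c a}
  obtain ⟨c0, hc0⟩ := hCne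
  have hBc : Bᶜ = Cᶜ ∩ {a | S.R a c0} := by
    ext a
    simp only [B, Set.mem_compl_iff, Set.mem_ofPred_eq, not_or, Set.mem_inter_iff]
    constructor
    · rintro ⟨h1, h2⟩
      refine ⟨h1, ?_⟩
      by_contra h3
      apply h2
      have h4 : S.R c0 a := (S.total a c0 (fun h => h1 (h ▸ hc0))).resolve_left h3
      exact S.const_of_right hC h1 hc0 h4
    · rintro ⟨h1, h2⟩
      exact ⟨h1, fun h => S.asymm _ _ h2 (h c0 hc0)⟩
  have hBopen : IsOpen B := by
    rw [isOpen_iff_mem_nhds]
    intro a ha
    have hsub : ∀ c ∈ C, {a' | S.R c a'} ⊆ B := by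
      intro c hc a' ha'
      by_cases h : a' ∈ C
      · exact Or.inl h
      · exact Or.inr (S.const_of_right hC h hc ha')
    rcases ha with ha | ha
    · obtain ⟨y, hy, hya⟩ := hun a ha
      exact Filter.mem_of_superset ((S.isOpen_right y).mem_nhds hya) (hsub y hy)
    · exact Filter.mem_of_superset ((S.isOpen_right c0).mem_nhds (ha c0 hc0)) (hsub c0 hc0)
  have hB : IsClopen B := by
    refine ⟨?_, hBopen⟩
    rw [← isOpen_compl_iff, hBc]
    exact hCc.isOpen_compl.inter (S.isOpen_left c0)
  refine ⟨S.comb B hB, S.comb_kingless B hB ⟨c0, Or.inl hc0⟩ ?_⟩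
  intro z hz
  by_cases hzC : z ∈ C
  · obtain ⟨x, hx, hxz⟩ := hun z hzC
    refine ⟨x, Or.inl hx, S.ne hxz, S.asymm _ _ hxz, ?_⟩
    rintro y hy ⟨h1, h2⟩
    by_cases hyC : y ∈ C
    · exact S.asymm _ _ hxz (htrans z hzC y hyC x hx h1 h2)
    · exact S.asymm _ _ h2 ((hy.resolve_left hyC) x hx)
  · have hz' := hz.resolve_left hzC
    refine ⟨c0, Or.inl hc0, fun h => hzC (h ▸ hc0), S.asymm _ _ (hz' c0 hc0), ?_⟩
    rintro y hy ⟨h1, h2⟩
    by_cases hyC : y ∈ C
    · exact S.asymm _ _ h1 (hz' y hyC)
    · exact S.asymm _ _ h2 ((hy.resolve_left hyC) c0 hc0)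

include S in
theorem case1 (C : Set X) (hCc : IsClosed C) (hC : IsPreconnected C) (hCne : C.Nonempty)
    (hnc : ¬ IsCompact C) : ∃ S' : Sel X, ∀ z, ¬ S'.King z := by
  have : PreconnectedSpace C := isPreconnected_iff_preconnectedSpace.1 hC
  have : Nonempty C := hCne.to_subtype
  have : LocallyCompactSpace C := hCc.isClosedEmbedding_subtypeVal.locallyCompactSpace
  have h1 : ¬ CompactSpace C := fun h => hnc (isCompact_iff_compactSpace.2 h)
  rcases (S.restrict C).exists_unbounded h1 with h | h
  · refine S.case1_aux C hCc hC hCne ?_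
    intro x hx
    obtain ⟨y, hy⟩ := h ⟨x, hx⟩
    exact ⟨y, y.2, hy⟩
  · refine S.op.case1_aux C hCc hC hCne ?_
    intro x hx
    obtain ⟨y, hy⟩ := h ⟨x, hx⟩
    exact ⟨y, y.2, hy⟩

end Sel

end V1125.King
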