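import Mathlib
import Pool.Agent.V1125.King.Comp

/-!
# All components compact
-/

set_option autoImplicit false

namespace V1125.King

open Set Topology

variable {X : Type*} [TopologicalSpace X] [T2Space X] [LocallyCompactSpace X]

theorem exists_clopen (x : X) (hC : IsCompact (connectedComponent x)) (O : Set X) (hO : IsOpen O)
    (hCO : connectedComponent x ⊆ O) :
    ∃ F, IsCompact F ∧ IsClopen F ∧ connectedComponent x ⊆ F ∧ F ⊆ O := by
  obtain ⟨K, hK, hCK, hKO⟩ := exists_compact_between hC hO hCO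
  have : CompactSpace K := isCompact_iff_compactSpace.1 hK
  have hxK : x ∈ K := interior_subset (hCK mem_connectedComponent)
  let x' : K := ⟨x, hxK⟩
  have h1 : ∀ y ∈ ⋂ s : {s : Set K // IsClopen s ∧ x' ∈ s}, (s : Set K),
      (Subtype.val ⁻¹' (interior K) : Set K) ∈ 𝓝 y := by
    intro y hy
    rw [← connectedComponent_eq_iInter_isClopen] at hy
    have h2 : Subtype.val '' (connectedComponent x') ⊆ connectedComponent x :=
      (isPreconnected_connectedComponent.image _ continuous_subtype_val.continuousOn).subset_connectedComponent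
        ⟨x', mem_connectedComponent, rfl⟩
    exact (isOpen_interior.preimage continuous_subtype_val).mem_nhds
      (hCK (h2 ⟨y, hy, rfl⟩))
  haveI : Nonempty {s : Set K // IsClopen s ∧ x' ∈ s} := ⟨⟨univ, isClopen_univ, Set.mem_univ _⟩⟩
  obtain ⟨⟨Z, hZ, hxZ⟩, hZK⟩ := exists_subset_nhds_of_compactSpace
    (V := fun s : {s : Set K // IsClopen s ∧ x' ∈ s} => (s : Set K))
    (by
      rintro ⟨s, hs, hxs⟩ ⟨t, ht, hxt⟩
      exact ⟨⟨s ∩ t, hs.inter ht, hxs, hxt⟩, Set.inter_subset_left, Set.inter_subset_right⟩)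
    (fun s => s.2.1.isClosed) h1
  obtain ⟨V, hV, hVZ⟩ := isOpen_induced_iff.1 hZ.isOpen
  have hFeq : Subtype.val '' Z = V ∩ interior K := by
    ext t
    constructor
    · rintro ⟨t, ht, rfl⟩
      refine ⟨?_, hZK ht⟩
      have : t ∈ Subtype.val ⁻¹' V := by rw [hVZ]; exact ht
      exact this
    · rintro ⟨ht1, ht2⟩
      refine ⟨⟨t, interior_subset ht2⟩, ?_, rfl⟩
      rw [← hVZ]
      exact ht1
  have hFc : IsCompact (Subtype.val '' Z : Set X) :=
    (hZ.isClosed.isCompact).image continuous_subtype_val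
  have hFclopen : IsClopen (Subtype.val '' Z : Set X) :=
    ⟨hFc.isClosed, by rw [hFeq]; exact hV.inter isOpen_interior⟩
  refine ⟨Subtype.val '' Z, hFc, hFclopen, ?_, ?_⟩
  · exact hFclopen.connectedComponent_subset ⟨x', hxZ, rfl⟩
  · rintro _ ⟨t, _, rfl⟩
    exact hKO t.2

namespace Sel

variable (S : Sel X)

/-- The accumulation lemma. -/
theorem accumulate (hfin : ∀ f : X → ℕ, IsLocallyConstant f → (range f).Finite)
    (F : ℕ → Set X) (hF : ∀ n, IsClopen (F n)) (hne : ∀ n, (F n).Nonempty)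
    (hdisj : ∀ m n, m < n → Disjoint (F m) (F n)) (N : Set ℕ) (hN : N.Infinite) :
    ∃ x : X, ∀ P : Set X, IsOpen P → x ∈ P → {n | n ∈ N ∧ (F n ∩ P).Nonempty}.Infinite := by
  classical
  by_contra hcon
  push Not at hcon
  choose P hPo hxP hPfin using hcon
  have hdisj' : ∀ m n x, x ∈ F m → x ∈ F n → m = n := by
    intro m n x hm hn
    rcases lt_trichotomy m n with h | h | h
    · exact absurd hn (Set.disjoint_left.1 (hdisj m n h) hm)
    · exact h
    · exact absurd hm (Set.disjoint_left.1 (hdisj n m h) hn)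
  let f : X → ℕ := fun x => if h : ∃ n ∈ N, x ∈ F n then h.choose + 1 else 0
  have hf1 : ∀ n ∈ N, ∀ x ∈ F n, f x = n + 1 := by
    intro n hn x hx
    have h : ∃ n ∈ N, x ∈ F n := ⟨n, hn, hx⟩
    simp only [f, dif_pos h]
    rw [hdisj' _ _ x h.choose_spec.2 hx]
  have hf0 : ∀ x, (¬ ∃ n ∈ N, x ∈ F n) → f x = 0 := by
    intro x h
    simp only [f, dif_neg h]
  have hloc : IsLocallyConstant f := by
    rw [IsLocallyConstant.iff_exists_open]
    intro x
    by_cases h : ∃ n ∈ N, x ∈ F n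
    · obtain ⟨n, hn, hx⟩ := h
      exact ⟨F n, (hF n).isOpen, hx, fun y hy => by rw [hf1 n hn y hy, hf1 n hn x hx]⟩
    · have hfinx : {n | n ∈ N ∧ (F n ∩ P x).Nonempty}.Finite := hPfin x
      refine ⟨P x ∩ (⋃ n ∈ {n | n ∈ N ∧ (F n ∩ P x).Nonempty}, F n)ᶜ, ?_, ?_, ?_⟩
      · exact (hPo x).inter (hfinx.isClosed_biUnion fun n _ => (hF n).isClosed).isOpen_compl
      · refine ⟨hxP x, ?_⟩
        intro hx
        rw [Set.mem_iUnion₂] at hx
        obtain ⟨n, hn, hxn⟩ := hx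
        exact h ⟨n, hn.1, hxn⟩
      · rintro y ⟨hy1, hy2⟩
        rw [hf0 x h, hf0 y]
        rintro ⟨n, hn, hyn⟩
        apply hy2
        rw [Set.mem_iUnion₂]
        exact ⟨n, ⟨hn, ⟨y, hyn, hy1⟩⟩, hyn⟩
  have h1 := hfin f hloc
  have h2 : (fun n => n + 1) '' N ⊆ range f := by
    rintro _ ⟨n, hn, rfl⟩
    obtain ⟨x, hx⟩ := hne n
    exact ⟨x, hf1 n hn x hx⟩
  exact (hN.image (fun a _ b _ h => by simpa using h)) (h1.subset h2)

/-- Finitely many types over a compact clopen set. -/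
theorem types (hfin : ∀ f : X → ℕ, IsLocallyConstant f → (range f).Finite)
    (𝒰 : Ultrafilter X) (F : Set X) (hFc : IsCompact F) (hF : IsClopen F) (hF𝒰 : F ∉ 𝒰) :
    ∃ W ∈ 𝒰, ∀ x ∈ F, (∀ y ∈ W, S.R x y) ∨ (∀ y ∈ W, S.R y x) := by
  classical
  let T : X → Set X := fun y => if y ∈ F then ∅ else {x | x ∈ F ∧ S.R x y}
  have hT0 : ∀ y ∈ F, T y = ∅ := fun y hy => if_pos hy
  have hT1 : ∀ y, y ∉ F → T y = {x | x ∈ F ∧ S.R x y} := fun y hy => if_neg hy
  have hloc : IsLocallyConstant T := by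
    rw [IsLocallyConstant.iff_exists_open]
    intro y0
    by_cases hy0 : y0 ∈ F
    · exact ⟨F, hF.isOpen, hy0, fun y hy => by rw [hT0 y hy, hT0 y0 hy0]⟩
    · have hF1 : IsCompact (F ∩ {x | S.R y0 x}ᶜ) :=
        hFc.inter_right (S.isOpen_right y0).isClosed_compl
      have hF2 : IsCompact (F ∩ {x | S.R x y0}ᶜ) :=
        hFc.inter_right (S.isOpen_left y0).isClosed_compl
      obtain ⟨u1, v1, hu1, hv1, hFu1, hyv1, h1⟩ := generalized_tube_lemma hF1
        (isCompact_singleton (x := y0)) S.isOpen (by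
          rintro ⟨x, y⟩ ⟨⟨hx1, hx2⟩, hy⟩
          rw [Set.mem_singleton_iff] at hy
          simp only at hy hx1 hx2
          subst hy
          exact (S.total x y (fun h => hy0 (h ▸ hx1))).resolve_right hx2)
      obtain ⟨u2, v2, hu2, hv2, hFu2, hyv2, h2⟩ := generalized_tube_lemma hF2
        (isCompact_singleton (x := y0)) S.op.isOpen (by
          rintro ⟨x, y⟩ ⟨⟨hx1, hx2⟩, hy⟩
          rw [Set.mem_singleton_iff] at hy
          simp only at hy hx1 hx2
          subst hy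
          exact (S.total x y (fun h => hy0 (h ▸ hx1))).resolve_left hx2)
      refine ⟨v1 ∩ v2 ∩ Fᶜ, (hv1.inter hv2).inter hF.compl.isOpen,
        ⟨⟨hyv1 rfl, hyv2 rfl⟩, hy0⟩, ?_⟩
      rintro y ⟨⟨hy1, hy2⟩, hyF⟩
      rw [hT1 y hyF, hT1 y0 hy0]
      ext x
      constructor
      · rintro ⟨hx, hxy⟩
        refine ⟨hx, ?_⟩
        by_contra hcon
        have h3 : S.R y x := h2 (a := (x, y)) ⟨hFu2 ⟨hx, hcon⟩, hy2⟩
        exact S.asymm _ _ hxy h3
      · rintro ⟨hx, hxy⟩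
        refine ⟨hx, ?_⟩
        exact h1 (a := (x, y)) ⟨hFu1 ⟨hx, S.asymm _ _ hxy⟩, hy1⟩
  have hTfin : (range T).Finite := by
    by_contra hinf
    have hinf' : (range T).Infinite := hinf
    let g := hinf'.natEmbedding
    let f : Set X → ℕ := Function.invFun (fun n => (g n : Set X))
    have hginj : Function.Injective (fun n => (g n : Set X)) :=
      Subtype.val_injective.comp g.injective
    have hfg : ∀ n, f (g n : Set X) = n := fun n => Function.leftInverse_invFun hginj n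
    have h1 := hfin (f ∘ T) (hloc.comp f)
    have h2 : range (f ∘ T) = univ := by
      refine Set.eq_univ_of_forall fun n => ?_
      obtain ⟨y, hy⟩ := (g n).2
      exact ⟨y, by rw [Function.comp_apply, hy, hfg]⟩
    rw [h2] at h1
    exact Set.infinite_univ h1
  obtain ⟨t, ht⟩ : ∃ t, T ⁻¹' {t} ∈ 𝒰 := by
    have h1 : (⋃ t ∈ range T, T ⁻¹' {t}) ∈ 𝒰 := by
      have : (⋃ t ∈ range T, T ⁻¹' {t}) = univ := by
        ext y
        simp
      rw [this]
      exact Filter.univ_mem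
    obtain ⟨t, _, ht⟩ := (Ultrafilter.finite_biUnion_mem_iff hTfin).1 h1
    exact ⟨t, ht⟩
  have hFc𝒰 : Fᶜ ∈ 𝒰 := Ultrafilter.compl_mem_iff_notMem.2 hF𝒰
  refine ⟨T ⁻¹' {t} ∩ Fᶜ, Filter.inter_mem ht hFc𝒰, ?_⟩
  intro x hx
  obtain ⟨y0, hy0t, hy0F⟩ := 𝒰.nonempty_of_mem (Filter.inter_mem ht hFc𝒰)
  have hTy : ∀ y, y ∈ T ⁻¹' {t} ∩ Fᶜ → T y = T y0 := by
    rintro y ⟨hy, _⟩
    rw [Set.mem_singleton_iff.1 hy, Set.mem_singleton_iff.1 hy0t]
  by_cases h : S.R x y0
  · left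
    intro y hy
    have h1 := hTy y hy
    rw [hT1 y hy.2, hT1 y0 hy0F] at h1
    have h2 : x ∈ {x | x ∈ F ∧ S.R x y} := by rw [h1]; exact ⟨hx, h⟩
    exact h2.2
  · right
    intro y hy
    have h1 := hTy y hy
    rw [hT1 y hy.2, hT1 y0 hy0F] at h1
    by_contra h3
    have hxy : x ≠ y := fun h => hy.2 (h ▸ hx)
    have h4 : S.R x y := (S.total x y hxy).resolve_right h3
    have h2 : x ∈ {x | x ∈ F ∧ S.R x y0} := by rw [← h1]; exact ⟨hx, h4⟩
    exact h h2.2

end Sel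

end V1125.King
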