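import Mathlib
import Pool.Agent.V1125.King.Seq

/-!
# Kingless continuous weak selections on non-compact locally compact spaces
-/

set_option autoImplicit false

namespace V1125.King

open Set Topology

namespace Sel

variable {X : Type*} [TopologicalSpace X] [T2Space X] [LocallyCompactSpace X] (S : Sel X)

theorem step (hcomp : ∀ x : X, IsCompact (connectedComponent x)) (𝒰 : Ultrafilter X)
    (B : Set X) (hB : IsClopen B) (hB𝒰 : B ∈ 𝒰) (z : X)
    (hdom : ∀ H : Set X, IsCompact H → IsClopen H → H ⊆ B →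
      ∃ W ∈ 𝒰, ∀ y ∈ W, ∀ x ∈ H, S.R y x)
    (hking : ∀ x ∈ B, x ≠ z → ¬ S.R z x → ∃ y ∈ B, S.R z y ∧ S.R y x)
    (H : Set X) (hHc : IsCompact H) (hH : IsClopen H) (hHB : H ⊆ B) (hzH : z ∈ H) :
    ∃ F G : Set X, (IsCompact F ∧ IsClopen F ∧ F.Nonempty ∧ F ⊆ B) ∧
      (IsCompact G ∧ IsClopen G ∧ G.Nonempty ∧ G ⊆ B) ∧ Disjoint G H ∧
      (∀ f ∈ F, ∀ h ∈ H, S.R f h) ∧ (∀ g ∈ G, ∀ f ∈ F, S.R g f) ∧ (∀ g ∈ G, S.R z g) := by
  obtain ⟨W, hW, hWH⟩ := hdom H hHc hH hHB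
  obtain ⟨x, hxW, hxB⟩ := 𝒰.nonempty_of_mem (Filter.inter_mem hW hB𝒰)
  have hxH : ∀ h ∈ H, S.R x h := hWH x hxW
  have hxz : S.R x z := hxH z hzH
  obtain ⟨y, hyB, hzy, hyx⟩ := hking x hxB (S.ne hxz) (S.asymm _ _ hxz)
  have hxnH : x ∉ H := fun h => S.irrefl x (hxH x h)
  have hynH : y ∉ H := fun h => S.asymm _ _ hyx (hxH y h)
  let Cx := connectedComponent x
  let Cy := connectedComponent y
  have hCx : IsPreconnected Cx := isPreconnected_connectedComponent
  have hCy : IsPreconnected Cy := isPreconnected_connectedComponent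
  have hxCx : x ∈ Cx := mem_connectedComponent
  have hyCy : y ∈ Cy := mem_connectedComponent
  have hCxH : Cx ⊆ Hᶜ := hH.compl.connectedComponent_subset hxnH
  have hCyH : Cy ⊆ Hᶜ := hH.compl.connectedComponent_subset hynH
  have hCxB : Cx ⊆ B := hB.connectedComponent_subset hxB
  have hCyB : Cy ⊆ B := hB.connectedComponent_subset hyB
  have h1 : ∀ c ∈ Cx, ∀ h ∈ H, S.R c h := by
    intro c hc h hh
    exact S.const_of_right hCx (fun h' => hCxH h' hh) hxCx (hxH h hh) c hc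
  have hyCx : y ∉ Cx := fun h => S.asymm _ _ hzy (h1 y h z hzH)
  have h2 : ∀ c ∈ Cx, S.R y c := S.const_of_left hCx hyCx hxCx hyx
  have h3 : ∀ d ∈ Cy, ∀ c ∈ Cx, S.R d c := by
    intro d hd c hc
    have hcCy : c ∉ Cy := by
      intro h
      apply hyCx
      have h4 : connectedComponent c = connectedComponent y := connectedComponent_eq h |>.symm
      have h5 : connectedComponent c = connectedComponent x := connectedComponent_eq hc |>.symm
      change y ∈ connectedComponent x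
      rw [← h5, h4]
      exact mem_connectedComponent
    exact S.const_of_right hCy hcCy hyCy (h2 c hc) d hd
  have h4 : ∀ d ∈ Cy, S.R z d :=
    S.const_of_left hCy (fun h => hCyH h hzH) hyCy hzy
  -- open sets
  obtain ⟨O1, O1', hO1, _, hCO1, hHO1, hO1R⟩ := generalized_tube_lemma (hcomp x) hHc S.isOpen
    (by rintro ⟨c, h⟩ ⟨hc, hh⟩; exact h1 c hc h hh)
  obtain ⟨O4, O5, hO4, hO5, hCO4, hCO5, hO45⟩ := generalized_tube_lemma (hcomp y) (hcomp x)
    S.isOpen (by rintro ⟨d, c⟩ ⟨hd, hc⟩; exact h3 d hd c hc)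
  obtain ⟨F, hFc, hF, hCF, hFO⟩ := exists_clopen x (hcomp x) (O1 ∩ O5 ∩ B)
    ((hO1.inter hO5).inter hB.isOpen) (fun c hc => ⟨⟨hCO1 hc, hCO5 hc⟩, hCxB hc⟩)
  obtain ⟨G, hGc, hG, hCG, hGO⟩ := exists_clopen y (hcomp y) (O4 ∩ {g | S.R z g} ∩ (B ∩ Hᶜ))
    ((hO4.inter (S.isOpen_right z)).inter (hB.isOpen.inter hH.compl.isOpen))
    (fun c hc => ⟨⟨hCO4 hc, h4 c hc⟩, hCyB hc, hCyH hc⟩)
  refine ⟨F, G, ⟨hFc, hF, ⟨x, hCF hxCx⟩, fun f hf => (hFO hf).2⟩,
    ⟨hGc, hG, ⟨y, hCG hyCy⟩, fun g hg => (hGO hg).2.1⟩,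
    Set.disjoint_left.2 fun g hg hgH => (hGO hg).2.2 hgH, ?_, ?_, ?_⟩
  · intro f hf h hh
    exact hO1R (a := (f, h)) ⟨(hFO hf).1.1, hHO1 hh⟩
  · intro g hg f hf
    exact hO45 (a := (g, f)) ⟨(hGO hg).1.1, (hFO hf).1.2⟩
  · intro g hg
    exact (hGO hg).1.2

theorem kinglessOn (hcomp : ∀ x : X, IsCompact (connectedComponent x)) (𝒰 : Ultrafilter X)
    (hfin : ∀ f : X → ℕ, IsLocallyConstant f → (range f).Finite)
    (B : Set X) (hB : IsClopen B) (hB𝒰 : B ∈ 𝒰)
    (hdom : ∀ H : Set X, IsCompact H → IsClopen H → H ⊆ B →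
      ∃ W ∈ 𝒰, ∀ y ∈ W, ∀ x ∈ H, S.R y x) : S.KinglessOn B := by
  classical
  by_contra hcon
  unfold KinglessOn at hcon
  push Not at hcon
  obtain ⟨z, hzB, hking⟩ := hcon
  -- the initial set
  obtain ⟨H0, hH0c, hH0, hzH0, hH0B⟩ := exists_clopen z (hcomp z) B hB.isOpen
    (hB.connectedComponent_subset hzB)
  have hz0 : z ∈ H0 := hzH0 mem_connectedComponent
  let St : Type _ := {H : Set X // IsCompact H ∧ IsClopen H ∧ H ⊆ B ∧ z ∈ H}
  have hstep := fun H : St => S.step hcomp 𝒰 B hB hB𝒰 z hdom hking H.1 H.2.1 H.2.2.1 H.2.2.2.1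
    H.2.2.2.2
  choose Fs Gs hFs hGs hGH hFH hGF hzG using hstep
  let nxt : St → St := fun H => ⟨H.1 ∪ (Fs H ∪ Gs H),
    H.2.1.union ((hFs H).1.union (hGs H).1), H.2.2.1.union ((hFs H).2.1.union (hGs H).2.1),
    Set.union_subset H.2.2.2.1 (Set.union_subset (hFs H).2.2.2 (hGs H).2.2.2),
    Or.inl H.2.2.2.2⟩
  let Hs : ℕ → St := fun n => Nat.rec ⟨H0, hH0c, hH0, hH0B, hz0⟩ (fun _ H => nxt H) n
  have hHs : ∀ n, Hs (n + 1) = nxt (Hs n) := fun n => rfl
  have hmono : ∀ m n, m ≤ n → (Hs m).1 ⊆ (Hs n).1 := by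
    intro m n hmn
    induction hmn with
    | refl => exact Set.Subset.rfl
    | step h ih =>
      refine ih.trans ?_
      rw [hHs]
      exact Set.subset_union_left
  let F : ℕ → Set X := fun n => Fs (Hs n)
  let G : ℕ → Set X := fun n => Gs (Hs n)
  have hFsub : ∀ m n, m < n → F m ⊆ (Hs n).1 := by
    intro m n hmn
    refine Set.Subset.trans ?_ (hmono (m + 1) n hmn)
    rw [hHs]
    exact Set.subset_union_left.trans Set.subset_union_right
  have hGsub : ∀ m n, m < n → G m ⊆ (Hs n).1 := by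
    intro m n hmn
    refine Set.Subset.trans ?_ (hmono (m + 1) n hmn)
    rw [hHs]
    exact Set.subset_union_right.trans Set.subset_union_right
  have hFF : ∀ m n, m < n → ∀ p ∈ F n, ∀ q ∈ F m, S.R p q :=
    fun m n hmn p hp q hq => hFH (Hs n) p hp q (hFsub m n hmn hq)
  have hFG : ∀ m n, m < n → ∀ p ∈ F n, ∀ q ∈ G m, S.R p q :=
    fun m n hmn p hp q hq => hFH (Hs n) p hp q (hGsub m n hmn hq)
  have hGFn : ∀ n, ∀ q ∈ G n, ∀ p ∈ F n, S.R q p := fun n => hGF (Hs n)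
  have hzGn : ∀ n, ∀ q ∈ G n, S.R z q := fun n => hzG (Hs n)
  have hFdisj : ∀ m n, m < n → Disjoint (F m) (F n) := by
    intro m n hmn
    refine Set.disjoint_left.2 fun p hm hn => ?_
    exact S.irrefl p (hFF m n hmn p hn p hm)
  have hGdisj : ∀ m n, m < n → Disjoint (G m) (G n) := by
    intro m n hmn
    exact (Disjoint.mono_right (hGsub m n hmn) (hGH (Hs n))).symm
  have hFz : ∀ n, ∀ p ∈ F n, S.R p z := fun n p hp => hFH (Hs n) p hp z (Hs n).2.2.2.2
  have hFH0 : ∀ n, ∀ p ∈ F n, p ∉ H0 := by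
    intro n p hp hpH
    exact S.irrefl p (hFH (Hs n) p hp p (hmono 0 n (Nat.zero_le n) hpH))
  -- two accumulation points of `F` coincide
  have huniq : ∀ x y : X,
      (∀ P : Set X, IsOpen P → x ∈ P → {n | (F n ∩ P).Nonempty}.Infinite) →
      (∀ P : Set X, IsOpen P → y ∈ P → {n | (F n ∩ P).Nonempty}.Infinite) → ¬ S.R x y := by
    intro x y hx hy hxy
    obtain ⟨P, Q, hP, hQ, hxP, hyQ, hPQ⟩ := generalized_tube_lemma
      (isCompact_singleton (x := x)) (isCompact_singleton (x := y)) S.isOpen (by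
        rintro ⟨a, b⟩ ⟨ha, hb⟩
        rw [Set.mem_singleton_iff] at ha hb
        simp only at ha hb
        subst ha; subst hb
        exact hxy)
    obtain ⟨n, p, hp, hpP⟩ := (hx P hP (hxP rfl)).nonempty
    obtain ⟨m, ⟨q, hq, hqQ⟩, hm⟩ := (hy Q hQ (hyQ rfl)).exists_gt n
    exact S.asymm _ _ (hPQ (a := (p, q)) ⟨hpP, hqQ⟩) (hFF n m hm q hq p hp)
  -- limit point of `F`
  obtain ⟨x, hx⟩ := accumulate hfin F (fun n => (hFs (Hs n)).2.1) (fun n => (hFs (Hs n)).2.2.1)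
    hFdisj univ Set.infinite_univ
  have hx' : ∀ P : Set X, IsOpen P → x ∈ P → {n | (F n ∩ P).Nonempty}.Infinite := by
    intro P hP hxP
    have := hx P hP hxP
    simpa using this
  have hconv : ∀ P : Set X, IsOpen P → x ∈ P → {n | ¬ (F n ∩ P).Nonempty}.Finite := by
    intro P hP hxP
    by_contra hinf
    obtain ⟨y, hy⟩ := accumulate hfin F (fun n => (hFs (Hs n)).2.1)
      (fun n => (hFs (Hs n)).2.2.1) hFdisj _ hinf
    have hy' : ∀ P : Set X, IsOpen P → y ∈ P → {n | (F n ∩ P).Nonempty}.Infinite := by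
      intro Q hQ hyQ
      exact (hy Q hQ hyQ).mono fun n hn => hn.2
    have hxy : x ≠ y := by
      rintro rfl
      obtain ⟨n, hn1, hn2⟩ := (hy P hP hxP).nonempty
      exact hn1 hn2
    rcases S.total x y hxy with h | h
    · exact huniq x y hx' hy' h
    · exact huniq y x hy' hx' h
  -- limit point of `G`
  obtain ⟨y, hy⟩ := accumulate hfin G (fun n => (hGs (Hs n)).2.1) (fun n => (hGs (Hs n)).2.2.1)
    hGdisj univ Set.infinite_univ
  have hy' : ∀ P : Set X, IsOpen P → y ∈ P → {n | (G n ∩ P).Nonempty}.Infinite := by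
    intro P hP hyP
    have := hy P hP hyP
    simpa using this
  -- `x → z`
  have hxz : S.R x z := by
    have hne : x ≠ z := by
      rintro rfl
      obtain ⟨n, p, hp, hpH⟩ := (hx' H0 hH0.isOpen hz0).nonempty
      exact hFH0 n p hp hpH
    refine (S.total x z hne).resolve_right fun h => ?_
    obtain ⟨n, p, hp, hpz⟩ := (hx' _ (S.isOpen_right z) h).nonempty
    exact S.asymm _ _ hpz (hFz n p hp)
  have hyz : ¬ S.R y z := by
    intro h
    obtain ⟨n, q, hq, hqz⟩ := (hy' _ (S.isOpen_left z) h).nonempty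
    exact S.asymm _ _ hqz (hzGn n q hq)
  have hxy : x ≠ y := by
    rintro rfl
    exact hyz hxz
  rcases S.total x y hxy with h | h
  · obtain ⟨P, Q, hP, hQ, hxP, hyQ, hPQ⟩ := generalized_tube_lemma
      (isCompact_singleton (x := x)) (isCompact_singleton (x := y)) S.isOpen (by
        rintro ⟨a, b⟩ ⟨ha, hb⟩
        rw [Set.mem_singleton_iff] at ha hb
        simp only at ha hb
        subst ha; subst hb
        exact h)
    have h1 := hconv P hP (hxP rfl)
    have h2 := hy' Q hQ (hyQ rfl)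
    obtain ⟨n, ⟨q, hq, hqQ⟩, hn⟩ := (h2.diff h1).nonempty
    have hn' : (F n ∩ P).Nonempty := by
      by_contra hcon
      exact hn hcon
    obtain ⟨p, hp, hpP⟩ := hn'
    exact S.asymm _ _ (hPQ (a := (p, q)) ⟨hpP, hqQ⟩) (hGFn n q hq p hp)
  · obtain ⟨Q, P, hQ, hP, hyQ, hxP, hQP⟩ := generalized_tube_lemma
      (isCompact_singleton (x := y)) (isCompact_singleton (x := x)) S.isOpen (by
        rintro ⟨a, b⟩ ⟨ha, hb⟩
        rw [Set.mem_singleton_iff] at ha hb
        simp only at ha hb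
        subst ha; subst hb
        exact h)
    obtain ⟨m, q, hq, hqQ⟩ := (hy' Q hQ (hyQ rfl)).nonempty
    obtain ⟨n, ⟨p, hp, hpP⟩, hn⟩ := (hx' P hP (hxP rfl)).exists_gt m
    exact S.asymm _ _ (hQP (a := (q, p)) ⟨hqQ, hpP⟩) (hFG m n hn p hp q hq)

theorem case2_aux (hcomp : ∀ x : X, IsCompact (connectedComponent x)) (𝒰 : Ultrafilter X)
    (h𝒰 : ∀ K : Set X, IsCompact K → K ∉ 𝒰)
    (hfin : ∀ f : X → ℕ, IsLocallyConstant f → (range f).Finite)
    (hB𝒰 : {x | {y | S.R y x} ∈ 𝒰} ∈ 𝒰) : ∃ S' : Sel X, ∀ z, ¬ S'.King z := by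
  let B : Set X := {x | {y | S.R y x} ∈ 𝒰}
  have hcl : ∀ x : X, ∃ F : Set X, IsCompact F ∧ IsClopen F ∧ x ∈ F := by
    intro x
    obtain ⟨F, h1, h2, h3, _⟩ := exists_clopen x (hcomp x) univ isOpen_univ (Set.subset_univ _)
    exact ⟨F, h1, h2, h3 mem_connectedComponent⟩
  have hpt : ∀ x : X, ∃ O : Set X, IsOpen O ∧ x ∈ O ∧
      ((x ∈ B → O ⊆ B) ∧ (x ∉ B → O ⊆ Bᶜ)) := by
    intro x
    obtain ⟨F, hFc, hF, hxF⟩ := hcl x
    obtain ⟨W, hW, hWF⟩ := S.types hfin 𝒰 F hFc hF (h𝒰 F hFc)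
    obtain ⟨y0, hy0⟩ := 𝒰.nonempty_of_mem hW
    have hmem : ∀ x' ∈ F, (x' ∈ B ↔ S.R y0 x') := by
      intro x' hx'
      constructor
      · intro h
        rcases hWF x' hx' with h1 | h1
        · exfalso
          obtain ⟨y, hy1, hy2⟩ := 𝒰.nonempty_of_mem (Filter.inter_mem hW h)
          exact S.asymm _ _ (h1 y hy1) hy2
        · exact h1 y0 hy0
      · intro h
        rcases hWF x' hx' with h1 | h1
        · exact absurd h (S.asymm _ _ (h1 y0 hy0))
        · exact Filter.mem_of_superset hW h1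
    by_cases hxB : x ∈ B
    · refine ⟨F ∩ {x' | S.R y0 x'}, hF.isOpen.inter (S.isOpen_right y0),
        ⟨hxF, (hmem x hxF).1 hxB⟩, fun _ x' hx' => (hmem x' hx'.1).2 hx'.2,
        fun h => absurd hxB h⟩
    · have h1 : S.R x y0 := by
        rcases hWF x hxF with h1 | h1
        · exact h1 y0 hy0
        · exact absurd ((hmem x hxF).2 (h1 y0 hy0)) hxB
      refine ⟨F ∩ {x' | S.R x' y0}, hF.isOpen.inter (S.isOpen_left y0), ⟨hxF, h1⟩,
        fun h => absurd h hxB, fun _ x' hx' h => ?_⟩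
      exact S.asymm _ _ hx'.2 ((hmem x' hx'.1).1 h)
  have hB : IsClopen B := by
    constructor
    · rw [← isOpen_compl_iff, isOpen_iff_forall_mem_open]
      intro x hx
      obtain ⟨O, hO, hxO, h⟩ := hpt x
      exact ⟨O, h.2 hx, hO, hxO⟩
    · rw [isOpen_iff_forall_mem_open]
      intro x hx
      obtain ⟨O, hO, hxO, h⟩ := hpt x
      exact ⟨O, h.1 hx, hO, hxO⟩
  refine ⟨S.comb B hB, S.comb_kingless B hB (𝒰.nonempty_of_mem hB𝒰)
    (S.kinglessOn hcomp 𝒰 hfin B hB hB𝒰 ?_)⟩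
  intro H hHc hH hHB
  obtain ⟨W, hW, hWH⟩ := S.types hfin 𝒰 H hHc hH (h𝒰 H hHc)
  refine ⟨W, hW, fun y hy x hx => ?_⟩
  rcases hWH x hx with h1 | h1
  · exfalso
    obtain ⟨y', hy1, hy2⟩ := 𝒰.nonempty_of_mem (Filter.inter_mem hW (hHB hx))
    exact S.asymm _ _ (h1 y' hy1) hy2
  · exact h1 y hy

include S in
/-- Every continuous weak selection on a non-compact locally compact Hausdorff space can be
changed to one without kings. -/
theorem exists_kingless (hX : ¬ CompactSpace X) : ∃ S' : Sel X, ∀ z, ¬ S'.King z := by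
  by_cases hcomp : ∀ x : X, IsCompact (connectedComponent x)
  · by_cases hfin : ∀ f : X → ℕ, IsLocallyConstant f → (range f).Finite
    · have : NoncompactSpace X := not_compactSpace_iff.1 hX
      let 𝒰 : Ultrafilter X := Ultrafilter.of (Filter.cocompact X)
      have h𝒰 : ∀ K : Set X, IsCompact K → K ∉ 𝒰 := by
        intro K hK
        rw [← Ultrafilter.compl_mem_iff_notMem]
        exact Ultrafilter.of_le _ hK.compl_mem_cocompact
      by_cases hB : {x | {y | S.R y x} ∈ 𝒰} ∈ 𝒰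
      · exact S.case2_aux hcomp 𝒰 h𝒰 hfin hB
      · refine S.op.case2_aux hcomp 𝒰 h𝒰 hfin ?_
        rw [← Ultrafilter.compl_mem_iff_notMem] at hB
        refine Filter.mem_of_superset hB ?_
        intro x hx
        have h1 : {y | S.R y x}ᶜ ∈ 𝒰 := Ultrafilter.compl_mem_iff_notMem.2 hx
        have h2 : ({x} : Set X)ᶜ ∈ 𝒰 :=
          Ultrafilter.compl_mem_iff_notMem.2 (h𝒰 _ isCompact_singleton)
        refine Filter.mem_of_superset (Filter.inter_mem h1 h2) ?_
        rintro y ⟨hy1, hy2⟩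
        exact (S.total x y (fun h => hy2 h.symm)).resolve_right hy1
    · push Not at hfin
      obtain ⟨f, hf, hinf⟩ := hfin
      exact ⟨S.lex f hf, S.lex_kingless f hf hinf⟩
  · push Not at hcomp
    obtain ⟨x, hx⟩ := hcomp
    exact S.case1 (connectedComponent x) isClosed_connectedComponent
      isPreconnected_connectedComponent ⟨x, mem_connectedComponent⟩ hx

end Sel

end V1125.King
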